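import Pool.Agent.KS6_65.TF.Three

/-!
Arrowing with tuples of cliques: the complete list of implications.

* `MonoClique G χ u a`: there are `a` pairwise adjacent vertices of `G`, all pairs of them having
  the colour `u` in the colouring `χ` of the pairs of vertices.
* `ArrowsT G a`, for a family `a : R → ℕ`: `G → (K_{a u})_{u ∈ R}`, i.e. every colouring `χ` of the
  pairs of vertices of `G` with colour set `R` satisfies `MonoClique G χ u (a u)` for some `u`.
* `CliqueArrows m S a`, for `S ⊆ R`: `K_m → (K_{a u})_{u ∈ S}`, i.e. every colouring of the pairs of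
  `Fin m` whose values (off the diagonal) lie in `S` has, for some `u ∈ S`, a monochromatic clique
  of colour `u` and size `a u`. (For `S = ∅` and `m ≥ 2` this is true.)
-/

set_option autoImplicit false

namespace Pool.Agent.Results.MP_5efe44_co.ArrowingImplications

open Pool.Agent.KS6_65.TF

/-- (1) For all tuples of cliques (any finite numbers of colours, all cliques with at least two
vertices) there is a graph `G` with `G ↛ (K_{a u})_u` and `G → (K_{b j})_j` if and only if for every
map `c` of the colours some `j` has `K_{b j} ↛ (K_{a u})_{c u = j}`.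
(2) Sharp three-colour form: for `k ≥ l ≥ 2`, `k ≥ 3` and `s ≥ 2` there is a graph `G` with
`G ↛ (K_k, K_k, K_l)` and `G → (K_s, K_{k-1}, K_l)` if and only if `K_s ↛ (K_k, K_k)`.
(3) In particular, for all `k ≥ l ≥ 2` there is a graph `G` with `G ↛ (K_k, K_k, K_l)` and
`G → (K_{k+1}, K_{k-1}, K_l)`. -/
theorem result :
    (∀ (R Q : Type) [Finite R] [Nonempty R] [Finite Q] [Nonempty Q] (a : R → ℕ) (b : Q → ℕ),
      (∀ u, 2 ≤ a u) → (∀ j, 2 ≤ b j) →
      ((∃ (n : ℕ) (G : SimpleGraph (Fin n)), ¬ ArrowsT G a ∧ ArrowsT G b) ↔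
        ∀ c : R → Q, ∃ j, ¬ CliqueArrows (b j) {u | c u = j} a)) ∧
    (∀ k l s : ℕ, 3 ≤ k → 2 ≤ l → l ≤ k → 2 ≤ s →
      ((∃ (n : ℕ) (G : SimpleGraph (Fin n)), ¬ ArrowsT G ![k, k, l] ∧ ArrowsT G ![s, k - 1, l]) ↔
        ¬ ArrowsT (⊤ : SimpleGraph (Fin s)) ![k, k])) ∧
    (∀ k l : ℕ, 2 ≤ l → l ≤ k →
      ∃ (n : ℕ) (G : SimpleGraph (Fin n)), ¬ ArrowsT G ![k, k, l] ∧
        ArrowsT G ![k + 1, k - 1, l]) := by
  refine ⟨?_, fun k l s hk hl hlk hs => three hk hl hlk hs, fun k l hl hlk => ?_⟩
  · intro R Q _ _ _ _ a b ha hb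
    constructor
    · rintro ⟨n, G, h1, h2⟩ c
      by_contra h
      push Not at h
      exact h1 (easy a b c h G h2)
    · exact hard a b ha hb
  · rcases (show 3 ≤ k ∨ k = 2 by omega) with hk | rfl
    · exact (three hk hl hlk (by omega)).2 (not_arrows_succ hk)
    · obtain rfl : l = 2 := by omega
      refine ⟨1, ⊥, ?_, ?_⟩
      · intro h
        obtain ⟨u, hu⟩ := h fun _ => 0
        have h2 : (![2, 2, 2] : Fin 3 → ℕ) u = 2 := by fin_cases u <;> rfl
        rw [h2] at hu
        have := monoClique_le hu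
        omega
      · intro χ
        exact ⟨1, {0}, rfl, fun x _ y _ hxy => absurd (Subsingleton.elim x y) hxy⟩

end Pool.Agent.Results.MP_5efe44_co.ArrowingImplications
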